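import Pool.Agent.Q287.QB5

/-! Sharp quantile bounds with fixed left endpoint and second moment in the convex transform order
(MP_4978a0_pr, Q1 and Q2).

`Y` has law `W`, `a = a_W`, and `y_p = W⁻¹(p)`.

* `C⁺` (`F ⪰_c W`): if `E Y² = ∞` the class is empty; otherwise
  `sup F⁻¹(p)/m_F = max_{a ≤ t < y_p} (y_p - t)/√(E (Y - t)₊²)`, the maximum being attained at the
  unique `t ∈ [a, y_p)` with `E (Y - t)₊ (y_p - Y) = 0`, or at `t = a` if
  `E (Y - a)(y_p - Y) ≤ 0`; and `inf F⁻¹(p)/m_F = 0`.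
* `C⁻` (`F ⪯_c W`): `sup F⁻¹(p)/m_F = 1/√(E min((Y - a)/(y_p - a), 1)²)` and
  `inf F⁻¹(p)/m_F = min(1, (y_p - a)/√(E (Y - a)²))` (`0` if `E Y² = ∞`).
* The bounds do not change when the classes are restricted to continuous distribution functions.
* If atoms at the left endpoint `0` are allowed in `C⁻`, the bounds are `1/√(1 - p)` and `0`. -/

namespace Pool.Agent.Results.MP_4978a0_pr.QuantileBounds

open Pool.Agent.Q287.QB MeasureTheory

theorem result (W : Measure ℝ) (a : ℝ) (d : EReal) (hW : IsBase W a d) (p : ℝ) (hp0 : 0 < p)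
    (hp1 : p < 1) :
    -- Q1
    (¬ Integrable (fun y => y ^ 2) W → plusValues W a p = ∅) ∧
    (Integrable (fun y => y ^ 2) W →
      (∃! t, IsOpt W a (quantile W p) t) ∧
      (∀ t, IsOpt W a (quantile W p) t →
        IsLUB (plusValues W a p) (valPlus W (quantile W p) t) ∧
        IsLUB (plusValuesCont W a p) (valPlus W (quantile W p) t) ∧
        ∀ t', a ≤ t' → t' < quantile W p →
          valPlus W (quantile W p) t' ≤ valPlus W (quantile W p) t) ∧
      IsGLB (plusValues W a p) 0 ∧ IsGLB (plusValuesCont W a p) 0) ∧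
    -- Q2
    (IsLUB (minusValues W a p) (supMinus W a (quantile W p)) ∧
      IsLUB (minusValuesCont W a p) (supMinus W a (quantile W p)) ∧
      IsGLB (minusValues W a p) (infMinus W a (quantile W p)) ∧
      IsGLB (minusValuesCont W a p) (infMinus W a (quantile W p))) ∧
    -- atoms at the left endpoint allowed
    (IsLUB (minusValuesAtom W a p) (1 / √(1 - p)) ∧ IsLeast (minusValuesAtom W a p) 0) := by
  rw [← wInv_eq_quantile hW hp0]
  refine ⟨?_, ?_, ?_, atom_sup hW hp0 hp1, atom_inf hW hp0 hp1⟩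
  · intro hint
    rw [Set.eq_empty_iff_forall_notMem]
    rintro r ⟨F, hF, -⟩
    exact hint (plus_integrable hW hF)
  · intro hint
    have hyd := wInv_lt_d hW hp0.le hp1
    obtain ⟨t, ht⟩ := exists_opt hW hint (lt_wInv hW hp0 hp1) hyd
    refine ⟨⟨t, ht, fun t' ht' => opt_unique hW hint hyd ht' ht⟩, ?_, plus_inf hW hint hp0 hp1⟩
    intro t ht
    obtain ⟨h1, h2⟩ := plus_sup hW hint hp0 hp1 ht
    exact ⟨h1, h2, fun t' h3 h4 => opt_max hW hint hyd ht h3 h4⟩
  · obtain ⟨h1, h2⟩ := minus_sup hW hp0 hp1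
    obtain ⟨h3, h4⟩ := minus_inf hW hp0 hp1
    exact ⟨h1, h2, h3, h4⟩

end Pool.Agent.Results.MP_4978a0_pr.QuantileBounds
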